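import Mathlib
import Pool.Agent.H17.GS.Stm
import Pool.Agent.H77.TF.Pri

/-!
# Project GS: module EQV, Jacobian syzygies and logarithmic fields
-/

set_option autoImplicit false

open MvPolynomial Module Pool.Agent.H77.TF

namespace Pool.Agent.H6.GS

open Pool.Agent.H17.GS

section

variable {K : Type} [Field K]

theorem lin_hom (a : Fin 3 → K) : (lin a).IsHomogeneous 1 := by
  unfold lin
  refine IsHomogeneous.sum _ _ _ fun i _ => ?_
  simpa using (isHomogeneous_C (Fin 3) (a i)).mul (isHomogeneous_X K i)

theorem Q_hom {ν : Type} [Fintype ν] (A : ν → Fin 3 → K) :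
    (∏ i, lin (A i)).IsHomogeneous (Fintype.card ν) := by
  have h := IsHomogeneous.prod Finset.univ (fun i => lin (A i)) (fun _ => 1)
    (fun i _ => lin_hom (A i))
  simpa using h

/-- The factors of a form are forms. -/
theorem hom_factor {p q : MvPolynomial (Fin 3) K} {n : ℕ} (h : (p * q).IsHomogeneous n)
    (hp : p ≠ 0) (hq : q ≠ 0) :
    p.IsHomogeneous p.totalDegree ∧ p.totalDegree + q.totalDegree = n := by
  have h1 : p.totalDegree + q.totalDegree = n := by
    rw [← totalDegree_mul_of_isDomain hp hq]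
    exact h.totalDegree (mul_ne_zero hp hq)
  refine ⟨?_, h1⟩
  have hord : (n : ℕ∞) ≤ (p : MvPowerSeries (Fin 3) K).order +
      (q : MvPowerSeries (Fin 3) K).order := by
    rw [← MvPowerSeries.order_mul, ← MvPolynomial.coe_mul]
    refine MvPowerSeries.le_order fun d hd => ?_
    rw [MvPolynomial.coeff_coe]
    refine h.coeff_eq_zero ?_
    have : d.degree < n := by exact_mod_cast hd
    omega
  have hqo : (q : MvPowerSeries (Fin 3) K).order ≤ (q.totalDegree : ℕ∞) := by
    obtain ⟨s, hs⟩ := support_nonempty.2 hq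
    refine le_trans (MvPowerSeries.order_le (d := s) ?_) ?_
    · rw [MvPolynomial.coeff_coe]
      exact mem_support_iff.1 hs
    · have := le_totalDegree hs
      exact_mod_cast this
  intro s hs
  have e1 : (p : MvPowerSeries (Fin 3) K).order ≤ (s.degree : ℕ∞) :=
    MvPowerSeries.order_le (d := s) (by rw [MvPolynomial.coeff_coe]; exact hs)
  have e2 : (n : ℕ∞) ≤ (s.degree : ℕ∞) + (q.totalDegree : ℕ∞) :=
    hord.trans (add_le_add e1 hqo)
  have e3 : n ≤ s.degree + q.totalDegree := by exact_mod_cast e2
  have e4 : s.degree ≤ p.totalDegree := le_totalDegree (mem_support_iff.2 hs)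
  change (Finsupp.weight (fun _ : Fin 3 => 1)) s = p.totalDegree
  rw [← Finsupp.degree_eq_weight_one]
  omega

/-- the derivative along `v` -/
noncomputable def D (v : Fin 3 → MvPolynomial (Fin 3) K) (f : MvPolynomial (Fin 3) K) :
    MvPolynomial (Fin 3) K := ∑ j, v j * pderiv j f

theorem D_mul (v : Fin 3 → MvPolynomial (Fin 3) K) (f g : MvPolynomial (Fin 3) K) :
    D v (f * g) = f * D v g + g * D v f := by
  unfold D
  rw [Finset.mul_sum, Finset.mul_sum, ← Finset.sum_add_distrib]
  refine Finset.sum_congr rfl fun j _ => ?_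
  rw [(pderiv j).leibniz, smul_eq_mul, smul_eq_mul]
  ring

theorem D_one (v : Fin 3 → MvPolynomial (Fin 3) K) : D v 1 = 0 := by
  unfold D
  refine Finset.sum_eq_zero fun j _ => ?_
  rw [pderiv_one, mul_zero]

theorem D_lin (v : Fin 3 → MvPolynomial (Fin 3) K) (a : Fin 3 → K) : D v (lin a) = evl a v := by
  classical
  unfold D evl lin
  refine Finset.sum_congr rfl fun j _ => ?_
  rw [map_sum, Finset.sum_eq_single j]
  · rw [pderiv_C_mul, pderiv_X_self]
    ring
  · intro b _ hb
    rw [pderiv_C_mul, pderiv_X_of_ne hb, mul_zero]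
  · intro h
    exact absurd (Finset.mem_univ j) h

theorem dvd_D {ν : Type} (A : ν → Fin 3 → K) {v : Fin 3 → MvPolynomial (Fin 3) K} (hv : v ∈ LD A)
    (s : Finset ν) : ∏ k ∈ s, lin (A k) ∣ D v (∏ k ∈ s, lin (A k)) := by
  classical
  induction s using Finset.induction_on with
  | empty =>
    rw [Finset.prod_empty]
    exact one_dvd _
  | insert i s hi ih =>
    rw [Finset.prod_insert hi, D_mul, D_lin]
    refine dvd_add (mul_dvd_mul_left _ ih) ?_
    rw [mul_comm (lin (A i))]
    exact mul_dvd_mul_left _ (hv i)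

end

theorem eqv : S_EQV := by
  classical
  intro K _ _ n A hA hn e
  set f : MvPolynomial (Fin 3) K := ∏ i, lin (A i) with hf
  have hf0 : f ≠ 0 := Finset.prod_ne_zero_iff.2 fun i _ => lin_ne_zero (hA.1 i)
  have hfh : f.IsHomogeneous n := by
    have := Q_hom A
    rwa [Fintype.card_fin] at this
  have euler : ∑ j, X j * pderiv j f = n • f := hfh.sum_X_mul_pderiv
  have hnK : (n : MvPolynomial (Fin 3) K) ≠ 0 := Nat.cast_ne_zero.2 (by omega)
  have hnf : n • f ≠ 0 := by
    rw [nsmul_eq_mul]
    exact mul_ne_zero hnK hf0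
  have hsyz : ∀ v, IsSyz A v ↔ D v f = 0 := fun v => Iff.rfl
  constructor
  · rintro ⟨v, hv, hh, h0⟩
    rw [hsyz] at hv
    refine ⟨v, ?_, hh, ?_⟩
    · intro i
      have hfm : lin (A i) * ∏ k ∈ Finset.univ.erase i, lin (A k) = f :=
        Finset.mul_prod_erase Finset.univ (fun k => lin (A k)) (Finset.mem_univ i)
      have h1 := hv
      rw [← hfm, D_mul, D_lin] at h1
      have h2 : lin (A i) ∣ (∏ k ∈ Finset.univ.erase i, lin (A k)) * evl (A i) v := by
        refine ⟨-D v (∏ k ∈ Finset.univ.erase i, lin (A k)), ?_⟩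
        linear_combination h1
      obtain ⟨hp, hq⟩ := pri K 3 (A i) (hA.1 i)
      rcases hp.dvd_or_dvd h2 with h3 | h3
      · obtain ⟨k, hk, hd⟩ := (Prime.dvd_finsetProd_iff hp _).1 h3
        obtain ⟨c, hc⟩ := hq (A k) hd
        exact absurd hc (hA.2 k i (Finset.ne_of_mem_erase hk) c)
      · exact h3
    · by_contra hc
      push Not at hc
      apply h0
      funext i
      have h1 : v i * (n • f) = 0 := by
        rw [← euler, Finset.mul_sum]
        have h2 : X i * D v f = 0 := by rw [hv, mul_zero]
        unfold D at h2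
        rw [Finset.mul_sum] at h2
        rw [← h2]
        refine Finset.sum_congr rfl fun j _ => ?_
        rw [← mul_assoc, ← mul_assoc, hc i j]
        ring
      rcases mul_eq_zero.1 h1 with h2 | h2
      · exact h2
      · exact absurd h2 hnf
  · rintro ⟨v, hv, hh, i0, j0, hij⟩
    obtain ⟨g, hg⟩ := dvd_D A hv Finset.univ
    change D v f = f * g at hg
    by_cases hz : D v f = 0
    · refine ⟨v, hz, hh, fun h => hij ?_⟩
      rw [h]
      simp
    · have hg0 : g ≠ 0 := by
        intro h
        rw [h, mul_zero] at hg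
        exact hz hg
      have hDh : (D v f).IsHomogeneous (e + (n - 1)) :=
        IsHomogeneous.sum _ _ _ fun j _ => (hh j).mul hfh.pderiv
      rw [hg, mul_comm] at hDh
      obtain ⟨hgh, hgd⟩ := hom_factor hDh hg0 hf0
      have hfd : f.totalDegree = n := hfh.totalDegree hf0
      have he : g.totalDegree + 1 = e := by omega
      have hinv : (C ((n : K)⁻¹) : MvPolynomial (Fin 3) K) * n = 1 := by
        have h1 : ((n : ℕ) : MvPolynomial (Fin 3) K) = C (n : K) := by simp
        rw [h1, ← C_mul, inv_mul_cancel₀ (Nat.cast_ne_zero.2 (by omega)), C_1]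
      refine ⟨fun j => v j - C ((n : K)⁻¹) * g * X j, ?_, ?_, ?_⟩
      · rw [hsyz]
        have h1 : D (fun j => v j - C ((n : K)⁻¹) * g * X j) f =
            D v f - C ((n : K)⁻¹) * g * ∑ j, X j * pderiv j f := by
          unfold D
          rw [Finset.mul_sum, ← Finset.sum_sub_distrib]
          refine Finset.sum_congr rfl fun j _ => ?_
          ring
        rw [h1, euler, hg, nsmul_eq_mul]
        linear_combination (-(g * f)) * hinv
      · intro j
        refine (hh j).sub ?_
        have h1 : (C ((n : K)⁻¹) * g * X j : MvPolynomial (Fin 3) K).IsHomogeneous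
            (0 + g.totalDegree + 1) :=
          ((isHomogeneous_C (Fin 3) _).mul hgh).mul (isHomogeneous_X K j)
        rw [zero_add, he] at h1
        exact h1
      · intro h
        apply hij
        have h1 : ∀ j, v j = C ((n : K)⁻¹) * g * X j := fun j => sub_eq_zero.1 (congrFun h j)
        rw [h1 i0, h1 j0]
        ring

end Pool.Agent.H6.GS
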